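import Mathlib

set_option autoImplicit false

/-!
MP_120218_co, project TR (translates): definitions shared by all files.
`lev`, `W0`: popular valuations.  `Pop`, `W1`: popular leading digits.  `ht`: multiplicative height.
-/

open Finset

namespace Pool.Agent.Helper26.TR

/-- the `k`-fold product set -/
def prodSet (k : ℕ) (A : Finset ℤ) : Finset ℤ :=
  (Fintype.piFinset (fun _ : Fin k => A)).image (fun f : Fin k → ℤ => ∏ i, f i)

/-- the number of elements of `A` divisible by `n` -/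
def cdiv (A : Finset ℤ) (n : ℤ) : ℕ := (A.filter (fun a => n ∣ a)).card

/-- the largest valuation at `p` of an element of `A` -/
def mval (A : Finset ℤ) (p : ℕ) : ℕ := A.sup (fun a => padicValInt p a)

open Classical in
/-- the largest `l` such that `p^l` divides at least `κ|A|` elements of `A` -/
noncomputable def lev (κ : ℝ) (A : Finset ℤ) (p : ℕ) : ℕ :=
  Nat.findGreatest (fun l => κ * (A.card : ℝ) ≤ (cdiv A ((p : ℤ) ^ l) : ℝ)) (mval A p)

/-- the primes dividing some non-zero element of `A` -/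
def prs (A : Finset ℤ) : Finset ℕ := A.biUnion (fun a => a.natAbs.primeFactors)

/-- weight of the popular valuations -/
noncomputable def W0 (κ : ℝ) (A : Finset ℤ) : ℝ := ∑ p ∈ prs A, (lev κ A p : ℝ) * Real.log p

/-- popular leading digits: for every prime `p` in `T` at least `κ|A|` elements of `A` are
congruent to `β p` modulo `p ^ e p`, and `p ^ e p` does not divide `β p` -/
def Pop (κ : ℝ) (A : Finset ℤ) (T : Finset ℕ) (e : ℕ → ℕ) (β : ℕ → ℤ) : Prop :=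
  (∀ p ∈ T, p.Prime) ∧ (∀ p ∈ T, ¬ ((p : ℤ) ^ e p ∣ β p)) ∧
    ∀ p ∈ T, κ * (A.card : ℝ) ≤ ((A.filter (fun a => (p : ℤ) ^ e p ∣ a - β p)).card : ℝ)

/-- the weight of a system of leading digits -/
noncomputable def W1 (T : Finset ℕ) (e : ℕ → ℕ) (β : ℕ → ℤ) : ℝ :=
  ∑ p ∈ T, ((e p - padicValInt p (β p) : ℕ) : ℝ) * Real.log p

/-- the height of the fraction `a/b` in lowest terms -/
def ht (a b : ℤ) : ℕ := max (a.natAbs / Int.gcd a b) (b.natAbs / Int.gcd a b)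

/-- `NZ` (structure theorem for one set), as a proposition -/
def NZStatement : Prop :=
  ∀ k : ℕ, 1 ≤ k → ∀ ε : ℝ, 0 < ε → ∀ κ₀ : ℝ, 0 < κ₀ → ∃ (S : Finset ℝ) (C c : ℝ),
    (∀ κ ∈ S, 0 < κ ∧ κ ≤ κ₀) ∧ 0 < C ∧ 0 < c ∧
    ∀ A : Finset ℤ, A.Nonempty → (0 : ℤ) ∉ A →
      ((prodSet k A).card : ℝ) < c * (A.card : ℝ) ^ ((k : ℝ) - ε) →
      ∃ κ ∈ S, ∀ (T : Finset ℕ) (e : ℕ → ℕ) (β : ℕ → ℤ), Pop κ A T e β →
        W1 T e β ≤ C * (W0 κ A + 1)

/-- the lower bound for the weight of the popular valuations (helper2), as a proposition -/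
def WeightLower : Prop :=
  ∀ k : ℕ, 1 ≤ k → ∀ ε : ℝ, 0 < ε → ∃ κ₀ c : ℝ, 0 < κ₀ ∧ 0 < c ∧
    ∀ A : Finset ℤ, A.Nonempty → (0 : ℤ) ∉ A →
      ((prodSet k A).card : ℝ) < c * (A.card : ℝ) ^ ((k : ℝ) - ε) →
      ∀ κ : ℝ, 0 < κ → κ ≤ κ₀ →
        c * (Real.log A.card * Real.log (Real.log A.card)) ≤ W0 κ A

/-- the product of `k` sets -/
def mixSet {k : ℕ} (A : Fin k → Finset ℤ) : Finset ℤ :=
  (Fintype.piFinset A).image (fun f : Fin k → ℤ => ∏ i, f i)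

/-- the total popular valuation weight of the sets before `l` -/
noncomputable def W0b {k : ℕ} (κ : ℝ) (A : Fin k → Finset ℤ) (l : Fin k) : ℝ :=
  ∑ l' ∈ univ.filter (fun l' : Fin k => l' < l), W0 κ (A l')

/-- structure theorem for `k` sets (mixed form, helper99) -/
def NZMix : Prop :=
  ∀ k : ℕ, ∀ ε : ℝ, 0 < ε → ∃ (κ : Fin k → ℝ) (C c : ℝ),
    (∀ l, 0 < κ l ∧ κ l ≤ 1) ∧ 0 < C ∧ 0 < c ∧
    ∀ (N : ℕ) (A : Fin k → Finset ℤ), (∀ l, (A l).Nonempty) → (∀ l, (0 : ℤ) ∉ A l) →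
      (∀ l, (A l).card ≤ N) →
      ((mixSet A).card : ℝ) < c * (N : ℝ) ^ (-ε) * ∏ l, ((A l).card : ℝ) →
      ∃ l : Fin k, 0 < (l : ℕ) ∧
        (∀ (T : Finset ℕ) (e : ℕ → ℕ) (β : ℕ → ℤ), Pop (κ l) (A l) T e β →
          W1 T e β ≤ C * (W0b (κ l) A l + 1)) ∧
        c * (Real.log N * Real.log (Real.log N)) ≤ W0b (κ l) A l

/-- translates, mixed form: all but boundedly many translates are jointly generic -/
def TRMix : Prop :=
  ∀ k : ℕ, 1 ≤ k → ∀ ε : ℝ, 0 < ε → ∃ (m : ℕ) (c : ℝ), 0 < c ∧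
    ∀ A : Finset ℤ, A.Nonempty → ∃ E : Finset ℤ, E.card ≤ m ∧
      ∀ x : Fin k → ℤ,
        (∀ i, |(x i : ℝ)| ≤ (A.card : ℝ) ^ (c * Real.log (Real.log A.card))) →
        (univ.filter (fun i => x i ∈ E)).card ≤ 1 →
        c * (A.card : ℝ) ^ ((k : ℝ) - ε) ≤
          ((mixSet (fun i => A.image (fun a => a + x i))).card : ℝ)

/-- translates by rational numbers, mixed form (helpers 34, 99) -/
def TRMixQ : Prop :=
  ∀ k : ℕ, 1 ≤ k → ∀ ε : ℝ, 0 < ε → ∃ (m : ℕ) (c : ℝ), 0 < c ∧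
    ∀ A : Finset ℤ, A.Nonempty → ∃ E : Finset ℚ, E.card ≤ m ∧
      ∀ x : Fin k → ℚ,
        (∀ i, |((x i).num : ℝ)| ≤ (A.card : ℝ) ^ (c * Real.log (Real.log A.card)) ∧
          ((x i).den : ℝ) ≤ (A.card : ℝ) ^ (c * Real.log (Real.log A.card))) →
        (univ.filter (fun i => x i ∈ E)).card ≤ 1 →
        c * (A.card : ℝ) ^ ((k : ℝ) - ε) ≤
          (((Fintype.piFinset (fun i => A.image (fun a : ℤ => (a : ℚ) + x i))).image
            (fun f : Fin k → ℚ => ∏ i, f i)).card : ℝ)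

/-- the decoding corollary (helper84), as a proposition: the sets are decoded one after the other -/
def CORStatement : Prop :=
  ∀ k : ℕ, ∀ ζ : ℝ, 0 < ζ → ∃ κ C : ℝ, 0 < κ ∧ 0 < C ∧
    ∀ L : ℝ, 1 ≤ L → ∀ Y : Fin k → Finset ℤ, (∀ l, (Y l).Nonempty) → (∀ l, (0 : ℤ) ∉ Y l) →
      (∀ l, Real.log (Y l).card ≤ L) → ∀ M : ℝ, 1 ≤ M →
      (∀ l : Fin k, 0 < l.val → ∀ b ∈ Y l,
        (((Y l).filter (fun b' => Real.log (ht b b') ≤
          C * ∑ l' ∈ univ.filter (fun l' : Fin k => l' < l), W0 κ (Y l'))).card : ℝ) ≤ M) →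
      ∑ l, Real.log (Y l).card - k * (ζ * L + Real.log M + 1) ≤
        Real.log ((Fintype.piFinset Y).image (fun f : Fin k → ℤ => ∏ i, f i)).card

/-- almost all translates have product sets of nearly maximal size -/
def TRStatement : Prop :=
  ∀ k : ℕ, 1 ≤ k → ∀ ε : ℝ, 0 < ε → ∃ (m : ℕ) (c : ℝ), 0 < c ∧
    ∀ A : Finset ℤ, A.Nonempty → ∀ X : Finset ℤ, m < X.card →
      (∀ x ∈ X, ∀ y ∈ X, (|x - y| : ℝ) ≤ (A.card : ℝ) ^ (c * Real.log (Real.log A.card))) →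
      ∃ x ∈ X, c * (A.card : ℝ) ^ ((k : ℝ) - ε) ≤
        ((prodSet k (A.image (fun a => a + x))).card : ℝ)

end Pool.Agent.Helper26.TR
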