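import Pool.Agent.Helper26.TR.Iface

set_option autoImplicit false

/-!
MP_120218_co, project TR: the structure theorem `NZMix` from the decoding corollary and the count.
-/

open Finset

namespace Pool.Agent.Helper26.TR

theorem padic_zero_of_lt {q : ℕ} {a : ℤ} (ha : a ≠ 0) (h : a.natAbs < q) :
    padicValInt q a = 0 := by
  unfold padicValInt
  apply padicValNat.eq_zero_of_not_dvd
  intro hd
  have := Nat.le_of_dvd (Int.natAbs_pos.2 ha) hd
  omega

theorem lev_le_mval (κ : ℝ) (A : Finset ℤ) (p : ℕ) : lev κ A p ≤ mval A p := by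
  unfold lev
  exact Nat.findGreatest_le _

/-- above the level the divisibility is unpopular -/
theorem cdiv_lt {κ : ℝ} (hκ : 0 < κ) {A : Finset ℤ} (hA : A.Nonempty) (hA0 : (0 : ℤ) ∉ A) {p : ℕ}
    (hp : p.Prime) {l : ℕ} (hl : lev κ A p < l) :
    (cdiv A ((p : ℤ) ^ l) : ℝ) < κ * A.card := by
  have := Fact.mk hp
  by_cases h : l ≤ mval A p
  · have h1 := Nat.findGreatest_is_greatest hl h
    push Not at h1
    exact h1
  · push Not at h
    have h2 : cdiv A ((p : ℤ) ^ l) = 0 := by
      unfold cdiv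
      rw [card_eq_zero]
      apply filter_false_of_mem
      intro a ha hd
      have ha0 : a ≠ 0 := fun h0 => hA0 (h0 ▸ ha)
      rw [padicValInt_dvd_iff] at hd
      rcases hd with hd | hd
      · exact ha0 hd
      · have h3 : padicValInt p a ≤ mval A p := by
          unfold mval
          exact le_sup (f := fun a => padicValInt p a) ha
        omega
    rw [h2]
    have : (0 : ℝ) < A.card := by exact_mod_cast card_pos.2 hA
    simp only [Nat.cast_zero]
    positivity

theorem lev_zero_of_notMem {κ : ℝ} {A : Finset ℤ} (hA0 : (0 : ℤ) ∉ A) {p : ℕ} (hp : p.Prime)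
    (h : p ∉ prs A) : lev κ A p = 0 := by
  have h1 : mval A p = 0 := by
    unfold mval
    rw [← bot_eq_zero, Finset.sup_eq_bot_iff]
    intro a ha
    have ha0 : a ≠ 0 := fun h0 => hA0 (h0 ▸ ha)
    unfold padicValInt
    apply padicValNat.eq_zero_of_not_dvd
    intro hd
    apply h
    unfold prs
    rw [mem_biUnion]
    exact ⟨a, ha, Nat.mem_primeFactors.2 ⟨hp, hd, Int.natAbs_ne_zero.2 ha0⟩⟩
  have := lev_le_mval κ A p
  omega

theorem W0_nonneg (κ : ℝ) (A : Finset ℤ) : 0 ≤ W0 κ A := by
  unfold W0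
  exact sum_nonneg fun p _ => mul_nonneg (Nat.cast_nonneg _) (Real.log_natCast_nonneg _)

theorem W0b_nonneg {k : ℕ} (κ : ℝ) (A : Fin k → Finset ℤ) (l : Fin k) : 0 ≤ W0b κ A l := by
  unfold W0b
  exact sum_nonneg fun l' _ => W0_nonneg _ _

/-- a bound for all elements -/
def bd {k : ℕ} (A : Fin k → Finset ℤ) : ℕ := (∑ l, ∑ a ∈ A l, a.natAbs) + 2

theorem natAbs_lt_bd {k : ℕ} {A : Fin k → Finset ℤ} {l : Fin k} {a : ℤ} (ha : a ∈ A l) :
    a.natAbs < bd A := by
  unfold bd
  have h1 : a.natAbs ≤ ∑ a ∈ A l, a.natAbs :=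
    single_le_sum (f := fun a : ℤ => a.natAbs) (fun _ _ => Nat.zero_le _) ha
  have h2 : ∑ a ∈ A l, a.natAbs ≤ ∑ l, ∑ a ∈ A l, a.natAbs :=
    single_le_sum (f := fun l => ∑ a ∈ A l, a.natAbs) (fun _ _ => Nat.zero_le _) (mem_univ l)
  omega

/-- the levels used to decode the `l`-th set -/
noncomputable def lamS {k : ℕ} (κ : Fin k → ℝ) (A : Fin k → Finset ℤ) (l : Fin k) (q : ℕ) : ℕ :=
  ∑ l' ∈ univ.filter (fun l' : Fin k => l' < l), lev (κ l) (A l') q

theorem lev_zero_of_bd {k : ℕ} {κ : ℝ} {A : Fin k → Finset ℤ} (hA0 : ∀ l, (0 : ℤ) ∉ A l)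
    {l : Fin k} {q : ℕ} (hq : bd A ≤ q) : lev κ (A l) q = 0 := by
  have h1 : mval (A l) q = 0 := by
    unfold mval
    rw [← bot_eq_zero, Finset.sup_eq_bot_iff]
    intro a ha
    have ha0 : a ≠ 0 := fun h0 => hA0 l (h0 ▸ ha)
    exact padic_zero_of_lt ha0 (lt_of_lt_of_le (natAbs_lt_bd ha) hq)
  have := lev_le_mval κ (A l) q
  omega

theorem lamS_zero {k : ℕ} {κ : Fin k → ℝ} {A : Fin k → Finset ℤ} (hA0 : ∀ l, (0 : ℤ) ∉ A l)
    (l : Fin k) (q : ℕ) (hq : bd A ≤ q) : lamS κ A l q = 0 := by
  unfold lamS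
  apply sum_eq_zero
  intro l' _
  exact lev_zero_of_bd hA0 hq

theorem W0_eq {k : ℕ} {κ : ℝ} {A : Fin k → Finset ℤ} (hA0 : ∀ l, (0 : ℤ) ∉ A l) (l : Fin k) :
    ∑ q ∈ (range (bd A)).filter Nat.Prime, (lev κ (A l) q : ℝ) * Real.log q = W0 κ (A l) := by
  unfold W0
  symm
  apply sum_subset
  · intro p hp
    unfold prs at hp
    rw [mem_biUnion] at hp
    obtain ⟨a, ha, hpa⟩ := hp
    rw [Nat.mem_primeFactors] at hpa
    rw [mem_filter, mem_range]
    refine ⟨lt_of_le_of_lt (Nat.le_of_dvd (Nat.pos_of_ne_zero hpa.2.2) hpa.2.1)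
      (natAbs_lt_bd ha), hpa.1⟩
  · intro p hp hp'
    rw [mem_filter] at hp
    rw [lev_zero_of_notMem (hA0 l) hp.2 hp']
    simp

theorem Wt_eq {k : ℕ} {κ : Fin k → ℝ} {A : Fin k → Finset ℤ} (hA0 : ∀ l, (0 : ℤ) ∉ A l)
    (l : Fin k) : Wt (bd A) (lamS κ A l) = W0b (κ l) A l := by
  unfold Wt W0b
  rw [sum_congr rfl (fun l' _ => (W0_eq (κ := κ l) hA0 l').symm), sum_comm]
  apply sum_congr rfl
  intro q _
  unfold lamS
  push_cast
  rw [sum_mul]

/-- **The structure theorem** (mixed form). -/
theorem nzMix (hcor : CorS) (hcount : CountS) : NZMix := by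
  classical
  intro k ε hε
  set ζ : ℝ := ε / (4 * (k + 1)) with hζ
  have hk1 : (0 : ℝ) < (k : ℝ) + 1 := by positivity
  have hζ0 : 0 < ζ := by positivity
  obtain ⟨κ₀, K, τ, C, hκ₀, hκ₀1, hK, hτ, hC, hmain⟩ := hcor k ζ hζ0
  obtain ⟨δ, n₀, hδ, hcnt⟩ := hcount K τ ζ hτ hζ0
  set κ : Fin k → ℝ := fun l => (κ₀ / 2) ^ ((l : ℕ) + 1) with hκ
  have hκpos : ∀ l, 0 < κ l := fun l => by simp only [hκ]; positivity
  have hhalf : κ₀ / 2 ≤ 1 := by linarith
  have hκle : ∀ l, κ l ≤ 1 := fun l => by
    simp only [hκ]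
    exact pow_le_one₀ (by positivity) hhalf
  have hκle' : ∀ l, κ l ≤ κ₀ / 2 := fun l => by
    simp only [hκ]
    calc (κ₀ / 2) ^ ((l : ℕ) + 1) ≤ (κ₀ / 2) ^ 1 :=
          pow_le_pow_of_le_one (by positivity) hhalf (by omega)
      _ = κ₀ / 2 := pow_one _
  have hκstep : ∀ l l' : Fin k, l' < l → κ l ≤ κ₀ / 2 * κ l' := by
    intro l l' hl
    simp only [hκ]
    rw [← pow_succ']
    apply pow_le_pow_of_le_one (by positivity) hhalf
    have : (l' : ℕ) < l := hl
    omega
  set κm : ℝ := (κ₀ / 2) ^ (k + 1) with hκm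
  have hκm0 : 0 < κm := by positivity
  have hκml : ∀ l, κm ≤ κ l := fun l => by
    simp only [hκ, hκm]
    exact pow_le_pow_of_le_one (by positivity) hhalf (by have := l.2; omega)
  set B : ℝ := 8 / κm ^ 2 with hB
  have hB0 : 0 < B := by positivity
  set C' : ℝ := 8 * (2 * C + 1) / κm ^ 2 with hC'
  have hC'0 : 0 < C' := by positivity
  -- a threshold for `N`
  obtain ⟨n₁, hn₁⟩ : ∃ n₁ : ℕ, ∀ N : ℕ, n₁ ≤ N → B ≤ (N : ℝ) ^ ζ := by
    have ht : Filter.Tendsto (fun N : ℕ => (N : ℝ) ^ ζ) Filter.atTop Filter.atTop :=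
      (tendsto_rpow_atTop hζ0).comp tendsto_natCast_atTop_atTop
    obtain ⟨n₁, hn₁⟩ := (Filter.tendsto_atTop.1 ht B).exists_forall_of_atTop
    exact ⟨n₁, hn₁⟩
  set n₂ : ℕ := max (max n₀ n₁) 16 with hn₂
  set D : ℝ := ∑ l, Real.log (κ l / 2) - k * (Real.log 2 + 1) with hD
  set c : ℝ := min (min δ 1) (min (1 / (n₂ : ℝ) ^ k) (Real.exp D)) with hc
  have hn₂0 : (0 : ℝ) < n₂ := by
    have : 0 < n₂ := by omega
    exact_mod_cast this
  have hc0 : 0 < c := lt_min (lt_min hδ one_pos) (lt_min (by positivity) (Real.exp_pos _))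
  have hcδ : c ≤ δ := (min_le_left _ _).trans (min_le_left _ _)
  have hc1 : c ≤ 1 := (min_le_left _ _).trans (min_le_right _ _)
  have hcn : c ≤ 1 / (n₂ : ℝ) ^ k := (min_le_right _ _).trans (min_le_left _ _)
  have hcD : c ≤ Real.exp D := (min_le_right _ _).trans (min_le_right _ _)
  clear_value c
  refine ⟨κ, C', c, fun l => ⟨hκpos l, hκle l⟩, hC'0, hc0, ?_⟩
  intro N A hAne hA0 hAN hmix
  by_contra hcon
  push Not at hcon
  have hmixne : (mixSet A).Nonempty := by
    unfold mixSet
    apply Nonempty.image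
    rw [Fintype.piFinset_nonempty]
    exact hAne
  have hmix1 : (1 : ℝ) ≤ ((mixSet A).card : ℝ) := by exact_mod_cast card_pos.2 hmixne
  have hprodpos : (0 : ℝ) < ∏ l, ((A l).card : ℝ) :=
    prod_pos fun l _ => by exact_mod_cast card_pos.2 (hAne l)
  have hN1 : 1 ≤ N := by
    by_contra h
    have hN0 : N = 0 := by omega
    subst hN0
    rw [Nat.cast_zero, Real.zero_rpow (by linarith)] at hmix
    linarith [hmix1]
  have hNpos : (0 : ℝ) < N := by exact_mod_cast hN1
  have hNε : (N : ℝ) ^ (-ε) ≤ 1 := by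
    apply Real.rpow_le_one_of_one_le_of_nonpos (by exact_mod_cast hN1) (by linarith)
  rcases lt_or_ge N n₂ with hlt | hge
  · -- small `N`
    have h1 : ∏ l, ((A l).card : ℝ) ≤ (n₂ : ℝ) ^ k := by
      calc ∏ l, ((A l).card : ℝ) ≤ ∏ _l : Fin k, (n₂ : ℝ) := by
            apply prod_le_prod
            · intro l _; positivity
            · intro l _
              have := hAN l
              exact_mod_cast this.trans hlt.le
        _ = (n₂ : ℝ) ^ k := by rw [prod_const, card_univ, Fintype.card_fin]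
    have h2 : c * (N : ℝ) ^ (-ε) * ∏ l, ((A l).card : ℝ) ≤ 1 := by
      calc c * (N : ℝ) ^ (-ε) * ∏ l, ((A l).card : ℝ)
          ≤ (1 / (n₂ : ℝ) ^ k) * 1 * (n₂ : ℝ) ^ k := by
            apply mul_le_mul _ h1 hprodpos.le (by positivity)
            exact mul_le_mul hcn hNε (by positivity) (by positivity)
        _ = 1 := by field_simp
    linarith
  · have hNn₀ : n₀ ≤ N := by omega
    have hNn₁ : n₁ ≤ N := by omega
    have hN16 : 16 ≤ N := by omega
    set L : ℝ := Real.log N with hL
    have hL1 : 1 ≤ L := by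
      rw [hL, Real.le_log_iff_exp_le hNpos]
      have h3 : Real.exp 1 < 2.7182818286 := Real.exp_one_lt_d9
      have h4 : (16 : ℝ) ≤ N := by exact_mod_cast hN16
      linarith
    have hLL : 0 ≤ L * Real.log L := mul_nonneg (by linarith) (Real.log_nonneg hL1)
    have hNζ : B ≤ (N : ℝ) ^ ζ := hn₁ N hNn₁
    have hNζ1 : (1 : ℝ) ≤ (N : ℝ) ^ ζ := Real.one_le_rpow (by exact_mod_cast hN1) hζ0.le
    set M : ℕ := ⌈(N : ℝ) ^ ζ⌉₊ with hM
    have hMle : (N : ℝ) ^ ζ ≤ M := Nat.le_ceil _
    have hM1 : 1 ≤ M := by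
      have : (1 : ℝ) ≤ M := hNζ1.trans hMle
      exact_mod_cast this
    have hlogM : Real.log M ≤ ζ * L + Real.log 2 := by
      have h5 : (M : ℝ) ≤ 2 * (N : ℝ) ^ ζ := by
        have := Nat.ceil_lt_add_one (show 0 ≤ (N : ℝ) ^ ζ by positivity)
        rw [← hM] at this
        linarith
      have h6 := Real.log_le_log (by exact_mod_cast hM1) h5
      rw [Real.log_mul (by norm_num) (by positivity), Real.log_rpow hNpos] at h6
      linarith
    -- the dichotomy
    have hdich : ∀ l : Fin k, 0 < (l : ℕ) →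
        (∃ (T : Finset ℕ) (e : ℕ → ℕ) (β : ℕ → ℤ), Pop (κ l) (A l) T e β ∧
          C' * (W0b (κ l) A l + 1) < W1 T e β) ∨ W0b (κ l) A l < c * (L * Real.log L) := by
      intro l hl
      by_contra h
      push Not at h
      exact absurd (hcon l hl h.1) (not_lt.2 h.2)
    -- choose the sets
    have hchoice : ∀ l : Fin k, ∃ Z : Finset ℤ, Z ⊆ A l ∧
        κ l / 2 * ((A l).card : ℝ) ≤ (Z.card : ℝ) ∧ ((l : ℕ) = 0 → Z = A l) ∧
        (0 < (l : ℕ) → ∀ b ∈ Z,
          (Z.filter (fun b' => Close (Ures K τ L (Wt (bd A) (lamS κ A l)) (lamS κ A l)) b b' ∧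
            dst b b' ≤ C * Wt (bd A) (lamS κ A l))).card ≤ M) := by
      intro l
      have hκA : κ l / 2 * ((A l).card : ℝ) ≤ ((A l).card : ℝ) := by
        have h7 : κ l / 2 ≤ 1 := by linarith [hκle l, hκpos l]
        calc κ l / 2 * ((A l).card : ℝ) ≤ 1 * ((A l).card : ℝ) :=
              mul_le_mul_of_nonneg_right h7 (Nat.cast_nonneg _)
          _ = _ := one_mul _
      rcases Nat.eq_zero_or_pos (l : ℕ) with hl | hl
      · exact ⟨A l, Subset.rfl, hκA, fun _ => rfl, fun h => absurd h (by omega)⟩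
      · rcases hdich l hl with ⟨T, e, β, hpop, hWlt⟩ | hsmall
        · have hWb := W0b_nonneg (κ l) A l
          have hW1 : 0 < W1 T e β := lt_of_le_of_lt (by positivity) hWlt
          refine ⟨Zs (κ l) (A l) T e β, Zs_subset _ _ _ _ _, Zs_card (hκpos l) hpop hW1,
            fun h => absurd h (by omega), ?_⟩
          intro _ b hb
          rw [Wt_eq hA0]
          set G := (Zs (κ l) (A l) T e β).filter (fun b' =>
            Close (Ures K τ L (W0b (κ l) A l) (lamS κ A l)) b b' ∧
              dst b b' ≤ C * W0b (κ l) A l) with hG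
          have hne0 : ∀ a ∈ Zs (κ l) (A l) T e β, a ≠ 0 := by
            intro a ha h0
            exact hA0 l (h0 ▸ Zs_subset _ _ _ _ _ ha)
          have hcell := cells (hκpos l) (hA0 l) hpop (w := 2 * (C * W0b (κ l) A l)) (by
            have h8 : κ l ^ 2 * C' / 8 ≥ 2 * C + 1 := by
              have h9 : κm ^ 2 ≤ κ l ^ 2 := pow_le_pow_left₀ hκm0.le (hκml l) 2
              have h10 : κm ^ 2 * C' = 8 * (2 * C + 1) := by
                rw [hC']; field_simp
              have h11 : κm ^ 2 * C' ≤ κ l ^ 2 * C' := mul_le_mul_of_nonneg_right h9 hC'0.le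
              linarith
            have hlog2 : Real.log 2 ≤ 1 := by
              have := Real.log_two_lt_d9
              linarith
            have h12 : κ l ^ 2 * (C' * (W0b (κ l) A l + 1)) ≤ κ l ^ 2 * W1 T e β :=
              mul_le_mul_of_nonneg_left hWlt.le (by positivity)
            have h13 : (2 * C + 1) * (W0b (κ l) A l + 1) ≤
                κ l ^ 2 * C' / 8 * (W0b (κ l) A l + 1) :=
              mul_le_mul_of_nonneg_right h8 (by positivity)
            nlinarith) (by positivity) (G := G) (filter_subset _ _) (by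
            intro a ha a' ha'
            rw [hG, mem_filter] at ha ha'
            have h14 := dst_triangle (c := a') (hne0 a ha.1) (hne0 b hb)
            rw [dst_comm a b] at h14
            linarith [ha.2.2, ha'.2.2])
          have h15 : (8 : ℝ) / κ l ^ 2 ≤ B := by
            rw [hB]
            apply div_le_div_of_nonneg_left (by norm_num) (by positivity)
            exact pow_le_pow_left₀ hκm0.le (hκml l) 2
          have h16 : (G.card : ℝ) ≤ M := hcell.trans (h15.trans (hNζ.trans hMle))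
          exact_mod_cast h16
        · refine ⟨A l, Subset.rfl, hκA, fun _ => rfl, ?_⟩
          intro _ b _
          have h17 : Wt (bd A) (lamS κ A l) < δ * (L * Real.log L) := by
            rw [Wt_eq hA0]
            exact lt_of_lt_of_le hsmall (mul_le_mul_of_nonneg_right hcδ hLL)
          have h18 := hcnt N (bd A) (lamS κ A l) hNn₀ (lamS_zero hA0 l) h17 (A l) b (hA0 l)
          have h19 : (((A l).filter (fun b' =>
              Close (Ures K τ L (Wt (bd A) (lamS κ A l)) (lamS κ A l)) b b' ∧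
                dst b b' ≤ C * Wt (bd A) (lamS κ A l))).card : ℝ) ≤
              ((A l).filter (fun b' =>
                Close (Ures K τ L (Wt (bd A) (lamS κ A l)) (lamS κ A l)) b b')).card := by
            apply Nat.cast_le.2
            apply card_le_card
            intro x hx
            rw [mem_filter] at hx ⊢
            exact ⟨hx.1, hx.2.1⟩
          have h20 := h19.trans (h18.trans hMle)
          exact_mod_cast h20
    choose Y hYA hYcard hY0 hYcell using hchoice
    have hYne : ∀ l, (Y l).Nonempty := by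
      intro l
      rw [← card_pos]
      have h21 : (0 : ℝ) < (Y l).card := by
        have h22 : (0 : ℝ) < (A l).card := by exact_mod_cast card_pos.2 (hAne l)
        have := hYcard l
        have := hκpos l
        exact lt_of_lt_of_le (by positivity) (hYcard l)
      exact_mod_cast h21
    have hYN : ∀ l, ((Y l).card : ℝ) ≤ Real.exp L := by
      intro l
      rw [hL, Real.exp_log hNpos]
      exact_mod_cast (card_le_card (hYA l)).trans (hAN l)
    have key := hmain Y L M (bd A) (lamS κ A) hL1 hM1 hYne (fun l h => hA0 l (hYA l h)) hYN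
      (fun l q hq => lamS_zero hA0 l q hq) (by
        intro l l' hl q hq
        have hlevle : lev (κ l) (A l') q ≤ lamS κ A l q := by
          unfold lamS
          exact single_le_sum (f := fun l' => lev (κ l) (A l') q) (fun _ _ => Nat.zero_le _)
            (mem_filter.2 ⟨mem_univ _, hl⟩)
        have h23 := cdiv_lt (hκpos l) (hAne l') (hA0 l') hq
          (l := lamS κ A l q + 1) (by omega)
        have h24 : (((Y l').filter (fun b => (q : ℤ) ^ (lamS κ A l q + 1) ∣ b)).card : ℝ) ≤
            (cdiv (A l') ((q : ℤ) ^ (lamS κ A l q + 1)) : ℝ) := by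
          unfold cdiv
          apply Nat.cast_le.2
          exact card_le_card (filter_subset_filter _ (hYA l'))
        refine h24.trans (h23.le.trans ?_)
        rcases Nat.eq_zero_or_pos (l' : ℕ) with h0 | hpos
        · rw [hY0 l' h0]
          apply mul_le_mul_of_nonneg_right _ (Nat.cast_nonneg _)
          linarith [hκle' l]
        · have h25 := hYcard l'
          have h26 := hκstep l l' hl
          calc κ l * ((A l').card : ℝ) ≤ κ₀ / 2 * κ l' * ((A l').card : ℝ) :=
                mul_le_mul_of_nonneg_right h26 (Nat.cast_nonneg _)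
            _ = κ₀ * (κ l' / 2 * ((A l').card : ℝ)) := by ring
            _ ≤ κ₀ * (Y l').card := mul_le_mul_of_nonneg_left h25 hκ₀.le)
      (fun l hl b hb => hYcell l hl b hb)
    have hsub : (Fintype.piFinset Y).image (fun f : Fin k → ℤ => ∏ i, f i) ⊆ mixSet A := by
      unfold mixSet
      apply image_subset_image
      intro f hf
      rw [Fintype.mem_piFinset] at hf ⊢
      exact fun l => hYA l (hf l)
    have hYprodne : ((Fintype.piFinset Y).image (fun f : Fin k → ℤ => ∏ i, f i)).Nonempty := by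
      apply Nonempty.image
      rw [Fintype.piFinset_nonempty]
      exact hYne
    have h27 : Real.log (((Fintype.piFinset Y).image (fun f : Fin k → ℤ => ∏ i, f i)).card) ≤
        Real.log ((mixSet A).card : ℝ) := by
      apply Real.log_le_log
      · exact_mod_cast card_pos.2 hYprodne
      · exact_mod_cast card_le_card hsub
    have h28 : Real.log ((mixSet A).card : ℝ) <
        Real.log c + -ε * L + ∑ l, Real.log ((A l).card : ℝ) := by
      have h29 := Real.log_lt_log (by linarith) hmix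
      rw [Real.log_mul (by positivity) hprodpos.ne', Real.log_mul hc0.ne' (by positivity),
        Real.log_rpow hNpos, Real.log_prod (fun l _ => by
          have := card_pos.2 (hAne l)
          positivity)] at h29
      exact h29
    have h30 : ∑ l, Real.log ((A l).card : ℝ) + ∑ l, Real.log (κ l / 2) ≤
        ∑ l, Real.log ((Y l).card : ℝ) := by
      rw [← sum_add_distrib]
      apply sum_le_sum
      intro l _
      have hAp : (0 : ℝ) < (A l).card := by exact_mod_cast card_pos.2 (hAne l)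
      have hκp := hκpos l
      rw [add_comm, ← Real.log_mul (by positivity) hAp.ne']
      exact Real.log_le_log (by positivity) (hYcard l)
    have h31 : Real.log c ≤ D := by
      rw [← Real.log_exp D]
      exact Real.log_le_log hc0 hcD
    have h32 : (k : ℝ) * (ζ * L + Real.log M + 1) ≤ k * (2 * ζ * L + Real.log 2 + 1) := by
      apply mul_le_mul_of_nonneg_left _ (Nat.cast_nonneg _)
      linarith
    have h33 : (k : ℝ) * (2 * ζ) ≤ ε := by
      rw [hζ]
      have : (k : ℝ) * (2 * (ε / (4 * (k + 1)))) = ε * (k / (2 * (k + 1))) := by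
        field_simp
        ring
      rw [this]
      have h34 : (k : ℝ) / (2 * (k + 1)) ≤ 1 := by
        rw [div_le_one (by positivity)]
        have : (0 : ℝ) ≤ k := Nat.cast_nonneg _
        linarith
      calc ε * (k / (2 * (k + 1))) ≤ ε * 1 := mul_le_mul_of_nonneg_left h34 hε.le
        _ = ε := mul_one _
    have h35 : (k : ℝ) * (2 * ζ) * L ≤ ε * L := mul_le_mul_of_nonneg_right h33 (by linarith)
    rw [hD] at h31
    have h36 : (k : ℝ) * (2 * ζ * L + Real.log 2 + 1) =
        (k : ℝ) * (2 * ζ) * L + k * (Real.log 2 + 1) := by ring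
    linarith

end Pool.Agent.Helper26.TR
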