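import Pool.Agent.Helper84.TR.Main
import Pool.Agent.Helper26.TR.NZ

set_option autoImplicit false

/-!
MP_120218_co, project TR: helper84's decoding corollary in the form used for the structure theorem.
-/

open Finset

namespace Pool.Agent.Helper26.TR

theorem corS : CorS := by
  classical
  intro k ζ hζ
  obtain ⟨κ, K, τ, C, hκ, hκ1, hK, hτ, hC, hmain⟩ := Pool.Agent.Helper84.TR.cor k ζ hζ
  refine ⟨κ, K, τ, C, hκ, hκ1, hK, hτ, hC, ?_⟩
  intro Y L M n lam hL hM hYne hY0 hYc hlam hlev hcell
  refine hmain Y L M n lam hL hM hYne hY0 hYc hlam ?_ ?_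
  · intro l l' hl q hq
    have h := hlev l l' hl q hq
    convert h using 3
  · intro l hl b hb
    have h := hcell l hl b hb
    have he : {b' : ℤ | b' ∈ Y l ∧
        Pool.Agent.Helper84.TR.Close (Pool.Agent.Helper84.TR.Ures K τ L
          (Pool.Agent.Helper84.TR.W n (lam l)) (lam l)) b b' ∧
        Pool.Agent.Helper84.TR.dst b b' ≤ C * Pool.Agent.Helper84.TR.W n (lam l)} =
        (((Y l).filter (fun b' => Close (Ures K τ L (Wt n (lam l)) (lam l)) b b' ∧
          dst b b' ≤ C * Wt n (lam l)) : Finset ℤ) : Set ℤ) := by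
      ext b'
      simp only [Set.mem_setOf_eq, coe_filter]
      exact Iff.rfl
    rw [he, Set.ncard_coe_finset]
    exact h

end Pool.Agent.Helper26.TR
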