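import Pool.Agent.Helper26.TR.One
import Pool.Agent.Helper26.TR.Bridge
import Pool.Agent.Helper34.TR.Count
import Pool.Agent.Helper34.TR.MixQ

set_option autoImplicit false

/-!
MP_120218_co, project TR: the final assembly.
-/

namespace Pool.Agent.Helper26.TR

theorem nzMixAll : NZMix := nzMix corS Pool.Agent.Helper34.TR.countS

theorem translatesAll : TRMixQ := Pool.Agent.Helper34.TR.translatesMixQ nzMixAll

end Pool.Agent.Helper26.TR
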