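import Pool.Agent.Helper26.TR.Defs

set_option autoImplicit false

/-!
MP_120218_co, project TR: trivial cells (section 3 of the note).
If many elements share their leading digits at many primes then these elements are separated
multiplicatively.
-/

open Finset

namespace Pool.Agent.Helper26.TR

/-- multiplicative distance of two integers (logarithm of numerator times denominator) -/
noncomputable def dst (b b' : ℤ) : ℝ :=
  Real.log |(b : ℝ)| + Real.log |(b' : ℝ)| - 2 * Real.log (Int.gcd b b' : ℝ)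

/-- the conditions `(p, t)` -/
def idx (T : Finset ℕ) (e : ℕ → ℕ) (β : ℕ → ℤ) : Finset (Σ _ : ℕ, ℕ) :=
  T.sigma (fun p => Icc 1 (e p - padicValInt p (β p)))

/-- `a` satisfies the condition `(p, t)` -/
def Cond (β : ℕ → ℤ) (x : Σ _ : ℕ, ℕ) (a : ℤ) : Prop :=
  ((x.1 : ℤ) ^ (padicValInt x.1 (β x.1) + x.2)) ∣ a - β x.1

instance (β : ℕ → ℤ) (x : Σ _ : ℕ, ℕ) (a : ℤ) : Decidable (Cond β x a) := by
  unfold Cond; infer_instance

/-- the weight of the conditions satisfied by `a` -/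
noncomputable def Fw (T : Finset ℕ) (e : ℕ → ℕ) (β : ℕ → ℤ) (a : ℤ) : ℝ :=
  ∑ x ∈ idx T e β, if Cond β x a then Real.log x.1 else 0

theorem W1_eq (T : Finset ℕ) (e : ℕ → ℕ) (β : ℕ → ℤ) :
    W1 T e β = ∑ x ∈ idx T e β, Real.log (x.1 : ℝ) := by
  unfold W1 idx
  rw [sum_sigma]
  apply sum_congr rfl
  intro p _
  simp only [sum_const, Nat.card_Icc, nsmul_eq_mul, Nat.add_sub_cancel]

theorem log_idx_nonneg {T : Finset ℕ} {e : ℕ → ℕ} {β : ℕ → ℤ} :
    ∀ x ∈ idx T e β, 0 ≤ Real.log (x.1 : ℝ) := fun _ _ => Real.log_natCast_nonneg _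

theorem Fw_le (T : Finset ℕ) (e : ℕ → ℕ) (β : ℕ → ℤ) (a : ℤ) : Fw T e β a ≤ W1 T e β := by
  rw [W1_eq]
  unfold Fw
  apply sum_le_sum
  intro x hx
  split_ifs
  · exact le_rfl
  · exact log_idx_nonneg x hx

theorem W1_nonneg (T : Finset ℕ) (e : ℕ → ℕ) (β : ℕ → ℤ) : 0 ≤ W1 T e β := by
  rw [W1_eq]
  exact sum_nonneg log_idx_nonneg

/-- the prime powers common to `a - β` and `a' - β` divide the difference of the coprime parts -/
theorem dvd_core {p : ℕ} (hp : p.Prime) {a a' β : ℤ} (hβ : β ≠ 0) (hne : a ≠ a') {t : ℕ}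
    (ht : 1 ≤ t)
    (h1 : ((p : ℤ) ^ (padicValInt p β + t)) ∣ a - β)
    (h2 : ((p : ℤ) ^ (padicValInt p β + t)) ∣ a' - β) :
    t ≤ (a / (Int.gcd a a' : ℤ) - a' / (Int.gcd a a' : ℤ)).natAbs.factorization p := by
  have := Fact.mk hp
  set s := padicValInt p β with hs
  set g : ℕ := Int.gcd a a' with hg
  have hg0 : g ≠ 0 := by
    intro h
    rw [hg, Int.gcd_eq_zero_iff] at h
    exact hne (h.1.trans h.2.symm)
  have ga : (g : ℤ) ∣ a := Int.gcd_dvd_left ..
  have ga' : (g : ℤ) ∣ a' := Int.gcd_dvd_right ..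
  have hg0' : (g : ℤ) ≠ 0 := by exact_mod_cast hg0
  set n : ℤ := a / (g : ℤ) - a' / (g : ℤ) with hn
  have hgn : (g : ℤ) * n = a - a' := by
    rw [hn, mul_sub, Int.mul_ediv_cancel' ga, Int.mul_ediv_cancel' ga']
  have hn0 : n ≠ 0 := by
    intro h
    rw [h, mul_zero] at hgn
    exact hne (by linarith)
  -- `p^(s+t)` divides `g n`
  have h3 : ((p : ℤ) ^ (s + t)) ∣ (g : ℤ) * n := by
    rw [hgn]
    have : a - a' = (a - β) - (a' - β) := by ring
    rw [this]
    exact dvd_sub h1 h2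
  -- `p^(s+1)` does not divide `g`
  have h4 : ¬ ((p : ℤ) ^ (s + 1)) ∣ (g : ℤ) := by
    intro h
    have h5 : ((p : ℤ) ^ (s + 1)) ∣ a := h.trans ga
    have h6 : ((p : ℤ) ^ (s + 1)) ∣ a - β := (pow_dvd_pow _ (by omega)).trans h1
    have h7 : ((p : ℤ) ^ (s + 1)) ∣ β := by
      have := dvd_sub h5 h6
      simpa using this
    rw [padicValInt_dvd_iff] at h7
    rcases h7 with h7 | h7
    · exact hβ h7
    · omega
  have h8 : p ^ (s + t) ∣ g * n.natAbs := by
    have := Int.natAbs_dvd_natAbs.mpr h3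
    rwa [Int.natAbs_pow, Int.natAbs_natCast, Int.natAbs_mul, Int.natAbs_natCast] at this
  have hnn : n.natAbs ≠ 0 := Int.natAbs_ne_zero.mpr hn0
  rw [hp.pow_dvd_iff_le_factorization (mul_ne_zero hg0 hnn), Nat.factorization_mul hg0 hnn,
    Finsupp.add_apply] at h8
  have h9 : g.factorization p ≤ s := by
    by_contra h
    push Not at h
    apply h4
    have : p ^ (s + 1) ∣ g := (hp.pow_dvd_iff_le_factorization hg0).2 h
    exact_mod_cast this
  omega

/-- sum over a set of primes of valuations times logarithms -/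
theorem sum_fact_le {T : Finset ℕ} {n : ℕ} (hn : n ≠ 0) :
    ∑ p ∈ T, (n.factorization p : ℝ) * Real.log p ≤ Real.log n := by
  have h1 : ∑ p ∈ T, (n.factorization p : ℝ) * Real.log p ≤
      ∑ p ∈ n.primeFactors, (n.factorization p : ℝ) * Real.log p := by
    have h2 : ∑ p ∈ T.filter (fun p => p ∈ n.primeFactors), (n.factorization p : ℝ) * Real.log p =
        ∑ p ∈ T, (n.factorization p : ℝ) * Real.log p := by
      apply sum_subset (filter_subset _ _)
      intro p hp hp'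
      rw [mem_filter, not_and] at hp'
      have h3 : n.factorization p = 0 := by
        rw [← Nat.support_factorization] at hp'
        exact Finsupp.notMem_support_iff.1 (hp' hp)
      rw [h3]
      simp
    rw [← h2]
    apply sum_le_sum_of_subset_of_nonneg
    · intro p hp
      exact (mem_filter.1 hp).2
    · intro p _ _
      exact mul_nonneg (Nat.cast_nonneg _) (Real.log_natCast_nonneg _)
  refine h1.trans (le_of_eq ?_)
  conv_rhs => rw [← Nat.prod_factorization_pow_eq_self hn]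
  rw [Finsupp.prod, Nat.support_factorization]
  push_cast
  rw [Real.log_prod (fun p hp => by
    have := (Nat.prime_of_mem_primeFactors hp).pos
    positivity)]
  apply sum_congr rfl
  intro p _
  rw [Real.log_pow]

/-- the common conditions of two different elements -/
theorem pair_bound {T : Finset ℕ} {e : ℕ → ℕ} {β : ℕ → ℤ} (hT : ∀ p ∈ T, p.Prime)
    (hβ : ∀ p ∈ T, β p ≠ 0) {a a' : ℤ} (ha : a ≠ 0) (ha' : a' ≠ 0) (hne : a ≠ a') :
    (∑ x ∈ idx T e β, if Cond β x a ∧ Cond β x a' then Real.log (x.1 : ℝ) else 0) ≤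
      dst a a' + Real.log 2 := by
  set g : ℕ := Int.gcd a a' with hg
  have hg0 : g ≠ 0 := by
    intro h
    rw [hg, Int.gcd_eq_zero_iff] at h
    exact ha h.1
  have ga : (g : ℤ) ∣ a := Int.gcd_dvd_left ..
  have ga' : (g : ℤ) ∣ a' := Int.gcd_dvd_right ..
  have hg0' : (g : ℤ) ≠ 0 := by exact_mod_cast hg0
  obtain ⟨u, hu⟩ := ga
  obtain ⟨u', hu'⟩ := ga'
  have hu0 : u ≠ 0 := by rintro rfl; exact ha (by simpa using hu)
  have hu0' : u' ≠ 0 := by rintro rfl; exact ha' (by simpa using hu')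
  have e1 : a / (g : ℤ) = u := by rw [hu]; exact Int.mul_ediv_cancel_left _ hg0'
  have e2 : a' / (g : ℤ) = u' := by rw [hu']; exact Int.mul_ediv_cancel_left _ hg0'
  set n : ℕ := (a / (g : ℤ) - a' / (g : ℤ)).natAbs with hn
  have hn0 : n ≠ 0 := by
    rw [hn, e1, e2]
    intro h
    have h1 : u = u' := by
      have := Int.natAbs_eq_zero.mp h
      linarith
    apply hne
    rw [hu, hu', h1]
  have key : (∑ x ∈ idx T e β, if Cond β x a ∧ Cond β x a' then Real.log (x.1 : ℝ) else 0) ≤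
      ∑ p ∈ T, (n.factorization p : ℝ) * Real.log p := by
    unfold idx
    rw [sum_sigma]
    apply sum_le_sum
    intro p hp
    have hc1 : ∀ t ∈ (Icc 1 (e p - padicValInt p (β p))).filter
        (fun t => Cond β ⟨p, t⟩ a ∧ Cond β ⟨p, t⟩ a'),
        Real.log ((⟨p, t⟩ : Σ _ : ℕ, ℕ).1 : ℝ) = Real.log (p : ℝ) := fun t _ => rfl
    rw [← sum_filter, sum_congr rfl hc1, sum_const, nsmul_eq_mul]
    apply mul_le_mul_of_nonneg_right _ (Real.log_natCast_nonneg _)
    have hsub : (Icc 1 (e p - padicValInt p (β p))).filter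
        (fun t => Cond β ⟨p, t⟩ a ∧ Cond β ⟨p, t⟩ a') ⊆ Icc 1 (n.factorization p) := by
      intro t ht
      rw [mem_filter, mem_Icc] at ht
      rw [mem_Icc]
      refine ⟨ht.1.1, ?_⟩
      exact dvd_core (hT p hp) (hβ p hp) hne ht.1.1 ht.2.1 ht.2.2
    have := card_le_card hsub
    rw [Nat.card_Icc, Nat.add_sub_cancel] at this
    exact_mod_cast this
  refine key.trans ((sum_fact_le hn0).trans ?_)
  -- `n ≤ 2 |u| |u'|`
  have h1 : (n : ℝ) ≤ 2 * (|(u : ℝ)| * |(u' : ℝ)|) := by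
    have h2 : (n : ℝ) = |(u : ℝ) - u'| := by
      rw [hn, e1, e2, Nat.cast_natAbs]
      push_cast
      rfl
    rw [h2]
    have h3 : (1 : ℝ) ≤ |(u : ℝ)| := by exact_mod_cast Int.one_le_abs hu0
    have h4 : (1 : ℝ) ≤ |(u' : ℝ)| := by exact_mod_cast Int.one_le_abs hu0'
    have h5 : |(u : ℝ) - u'| ≤ |(u : ℝ)| + |(u' : ℝ)| := abs_sub _ _
    nlinarith
  have hup : 0 < |(u : ℝ)| := abs_pos.2 (by exact_mod_cast hu0)
  have hup' : 0 < |(u' : ℝ)| := abs_pos.2 (by exact_mod_cast hu0')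
  have hgp : (0 : ℝ) < (g : ℝ) := by exact_mod_cast Nat.pos_of_ne_zero hg0
  have hnp : (0 : ℝ) < n := by exact_mod_cast Nat.pos_of_ne_zero hn0
  have h6 := Real.log_le_log hnp h1
  rw [Real.log_mul (by norm_num) (by positivity), Real.log_mul hup.ne' hup'.ne'] at h6
  have h7 : dst a a' = Real.log |(u : ℝ)| + Real.log |(u' : ℝ)| := by
    unfold dst
    rw [← hg]
    have h8 : |(a : ℝ)| = g * |(u : ℝ)| := by
      rw [hu]; push_cast; rw [abs_mul, abs_of_pos hgp]
    have h9 : |(a' : ℝ)| = g * |(u' : ℝ)| := by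
      rw [hu']; push_cast; rw [abs_mul, abs_of_pos hgp]
    rw [h8, h9, Real.log_mul hgp.ne' hup.ne', Real.log_mul hgp.ne' hup'.ne']
    ring
  rw [h7]
  linarith

/-- triangle inequality -/
theorem dst_triangle {a b c : ℤ} (ha : a ≠ 0) (hb : b ≠ 0) :
    dst a c ≤ dst a b + dst b c := by
  have h1 : Int.gcd a b * Int.gcd b c ∣ b.natAbs * Int.gcd a c := by
    have : b.natAbs * Int.gcd a c = Nat.gcd (b.natAbs * a.natAbs) (b.natAbs * c.natAbs) := by
      rw [Nat.gcd_mul_left]; rfl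
    rw [this]
    apply Nat.dvd_gcd
    · rw [mul_comm]
      exact Nat.mul_dvd_mul (Nat.gcd_dvd_left _ _) (Nat.gcd_dvd_left _ _)
    · exact Nat.mul_dvd_mul (Nat.gcd_dvd_right _ _) (Nat.gcd_dvd_right _ _)
  have g1 : 0 < Int.gcd a b := Int.gcd_pos_of_ne_zero_left _ ha
  have g2 : 0 < Int.gcd b c := Int.gcd_pos_of_ne_zero_left _ hb
  have g3 : 0 < Int.gcd a c := Int.gcd_pos_of_ne_zero_left _ ha
  have hb' : 0 < b.natAbs := Int.natAbs_pos.2 hb
  have h2 := Nat.le_of_dvd (Nat.mul_pos hb' g3) h1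
  have h3 : ((Int.gcd a b : ℝ) * (Int.gcd b c : ℝ)) ≤ |(b : ℝ)| * (Int.gcd a c : ℝ) := by
    have h4 : |(b : ℝ)| = (b.natAbs : ℝ) := by rw [Nat.cast_natAbs]; push_cast; rfl
    rw [h4]
    exact_mod_cast h2
  have p1 : (0 : ℝ) < Int.gcd a b := by exact_mod_cast g1
  have p2 : (0 : ℝ) < Int.gcd b c := by exact_mod_cast g2
  have p3 : (0 : ℝ) < Int.gcd a c := by exact_mod_cast g3
  have pb : 0 < |(b : ℝ)| := abs_pos.2 (by exact_mod_cast hb)
  have h5 := Real.log_le_log (by positivity) h3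
  rw [Real.log_mul p1.ne' p2.ne', Real.log_mul pb.ne' p3.ne'] at h5
  unfold dst
  linarith

theorem dst_comm (a b : ℤ) : dst a b = dst b a := by
  unfold dst
  rw [Int.gcd_comm]
  ring

/-- the elements which satisfy many conditions -/
noncomputable def Zs (κ : ℝ) (A : Finset ℤ) (T : Finset ℕ) (e : ℕ → ℕ) (β : ℕ → ℤ) : Finset ℤ := by
  classical
  exact A.filter (fun a => κ / 2 * W1 T e β ≤ Fw T e β a)

theorem Zs_subset (κ : ℝ) (A : Finset ℤ) (T : Finset ℕ) (e : ℕ → ℕ) (β : ℕ → ℤ) :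
    Zs κ A T e β ⊆ A := by
  unfold Zs
  exact filter_subset _ _

theorem mem_Zs {κ : ℝ} {A : Finset ℤ} {T : Finset ℕ} {e : ℕ → ℕ} {β : ℕ → ℤ} {a : ℤ} :
    a ∈ Zs κ A T e β ↔ a ∈ A ∧ κ / 2 * W1 T e β ≤ Fw T e β a := by
  unfold Zs
  rw [mem_filter]

/-- every condition is popular -/
theorem cond_card {κ : ℝ} {A : Finset ℤ} {T : Finset ℕ} {e : ℕ → ℕ} {β : ℕ → ℤ}
    (h : Pop κ A T e β) {x : Σ _ : ℕ, ℕ} (hx : x ∈ idx T e β) :
    κ * (A.card : ℝ) ≤ ((A.filter (fun a => Cond β x a)).card : ℝ) := by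
  unfold idx at hx
  rw [mem_sigma, mem_Icc] at hx
  refine (h.2.2 x.1 hx.1).trans ?_
  apply Nat.cast_le.2
  apply card_le_card
  intro a ha
  rw [mem_filter] at ha ⊢
  refine ⟨ha.1, ?_⟩
  unfold Cond
  exact (pow_dvd_pow _ (by omega)).trans ha.2

/-- the set `Zs` is dense -/
theorem Zs_card {κ : ℝ} (hκ : 0 < κ) {A : Finset ℤ} {T : Finset ℕ} {e : ℕ → ℕ} {β : ℕ → ℤ}
    (h : Pop κ A T e β) (hW : 0 < W1 T e β) :
    κ / 2 * (A.card : ℝ) ≤ ((Zs κ A T e β).card : ℝ) := by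
  set W := W1 T e β with hWdef
  have h1 : κ * (A.card : ℝ) * W ≤ ∑ a ∈ A, Fw T e β a := by
    unfold Fw
    rw [sum_comm]
    have h2 : ∀ x ∈ idx T e β, κ * (A.card : ℝ) * Real.log (x.1 : ℝ) ≤
        ∑ a ∈ A, if Cond β x a then Real.log (x.1 : ℝ) else 0 := by
      intro x hx
      rw [← sum_filter, sum_const, nsmul_eq_mul]
      exact mul_le_mul_of_nonneg_right (cond_card h hx) (Real.log_natCast_nonneg _)
    calc κ * (A.card : ℝ) * W = ∑ x ∈ idx T e β, κ * (A.card : ℝ) * Real.log (x.1 : ℝ) := by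
          rw [← mul_sum, hWdef, W1_eq]
      _ ≤ _ := sum_le_sum h2
  have h3 : ∑ a ∈ A, Fw T e β a ≤ (Zs κ A T e β).card * W + A.card * (κ / 2 * W) := by
    have h4 : ∀ a ∈ A, Fw T e β a ≤ (if a ∈ Zs κ A T e β then W else 0) + κ / 2 * W := by
      intro a ha
      split_ifs with hz
      · have := Fw_le T e β a
        have : 0 ≤ κ / 2 * W := by positivity
        linarith [Fw_le T e β a]
      · have : Fw T e β a < κ / 2 * W := by
          by_contra hlt
          push Not at hlt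
          exact hz (mem_Zs.2 ⟨ha, hlt⟩)
        linarith
    refine (sum_le_sum h4).trans ?_
    rw [sum_add_distrib, ← sum_filter, sum_const, sum_const, nsmul_eq_mul, nsmul_eq_mul]
    have h5 : A.filter (fun a => a ∈ Zs κ A T e β) = Zs κ A T e β := by
      ext a
      rw [mem_filter]
      exact ⟨fun h => h.2, fun h => ⟨Zs_subset _ _ _ _ _ h, h⟩⟩
    rw [h5]
  have h6 : κ / 2 * (A.card : ℝ) * W ≤ (Zs κ A T e β).card * W := by nlinarith
  exact le_of_mul_le_mul_right h6 hW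

/-- **Trivial cells.**  A set of elements of `Zs` whose pairwise distances are at most `w` has at
most `8/κ²` elements. -/
theorem cells {κ : ℝ} (hκ : 0 < κ) {A : Finset ℤ} (hA0 : (0 : ℤ) ∉ A) {T : Finset ℕ} {e : ℕ → ℕ}
    {β : ℕ → ℤ} (h : Pop κ A T e β) {w : ℝ} (hw : w + Real.log 2 ≤ κ ^ 2 * W1 T e β / 8)
    (hw0 : 0 ≤ w) {G : Finset ℤ} (hG : G ⊆ Zs κ A T e β)
    (hd : ∀ a ∈ G, ∀ a' ∈ G, dst a a' ≤ w) :
    (G.card : ℝ) ≤ 8 / κ ^ 2 := by
  set W := W1 T e β with hWdef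
  have hlog2 : 0 < Real.log 2 := Real.log_pos (by norm_num)
  have hW : 0 < W := by
    by_contra hcon
    push Not at hcon
    have : κ ^ 2 * W / 8 ≤ 0 := by
      have : κ ^ 2 * W ≤ 0 := mul_nonpos_of_nonneg_of_nonpos (by positivity) hcon
      linarith
    linarith
  have hβ : ∀ p ∈ T, β p ≠ 0 := by
    intro p hp h0
    apply h.2.1 p hp
    rw [h0]
    exact dvd_zero _
  have hne0 : ∀ a ∈ G, a ≠ 0 := by
    intro a ha h0
    apply hA0
    rw [← h0]
    exact Zs_subset _ _ _ _ _ (hG ha)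
  -- number of elements of `G` satisfying a condition
  set n : (Σ _ : ℕ, ℕ) → ℝ := fun x => ((G.filter (fun a => Cond β x a)).card : ℝ) with hn
  have h1 : ∑ a ∈ G, Fw T e β a = ∑ x ∈ idx T e β, Real.log (x.1 : ℝ) * n x := by
    unfold Fw
    rw [sum_comm]
    apply sum_congr rfl
    intro x _
    rw [← sum_filter, sum_const, nsmul_eq_mul, hn]
    ring
  have h2 : (G.card : ℝ) * (κ / 2 * W) ≤ ∑ a ∈ G, Fw T e β a := by
    rw [← nsmul_eq_mul, ← sum_const]
    exact sum_le_sum fun a ha => (mem_Zs.1 (hG ha)).2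
  have h3 : (∑ x ∈ idx T e β, Real.log (x.1 : ℝ) * n x) ^ 2 ≤
      (∑ x ∈ idx T e β, Real.log (x.1 : ℝ)) * ∑ x ∈ idx T e β, Real.log (x.1 : ℝ) * n x ^ 2 := by
    apply Finset.sum_sq_le_sum_mul_sum_of_sq_le_mul
    · exact log_idx_nonneg
    · intro x hx
      exact mul_nonneg (log_idx_nonneg x hx) (sq_nonneg _)
    · intro x _
      apply le_of_eq
      ring
  have h4 : ∑ x ∈ idx T e β, Real.log (x.1 : ℝ) * n x ^ 2 =
      ∑ a ∈ G, ∑ a' ∈ G, ∑ x ∈ idx T e β,
        if Cond β x a ∧ Cond β x a' then Real.log (x.1 : ℝ) else 0 := by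
    have h5 : ∀ x ∈ idx T e β, Real.log (x.1 : ℝ) * n x ^ 2 =
        ∑ a ∈ G, ∑ a' ∈ G, if Cond β x a ∧ Cond β x a' then Real.log (x.1 : ℝ) else 0 := by
      intro x _
      have h6 : ∀ a ∈ G, (∑ a' ∈ G, if Cond β x a ∧ Cond β x a' then Real.log (x.1 : ℝ) else 0) =
          if Cond β x a then n x * Real.log (x.1 : ℝ) else 0 := by
        intro a _
        by_cases hc : Cond β x a
        · simp only [hc, true_and, if_true]
          rw [← sum_filter, sum_const, nsmul_eq_mul]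
        · simp [hc]
      rw [sum_congr rfl h6, ← sum_filter, sum_const, nsmul_eq_mul]
      simp only [hn]
      ring
    rw [sum_congr rfl h5, sum_comm]
    apply sum_congr rfl
    intro a _
    rw [sum_comm]
  have h7 : ∑ a ∈ G, ∑ a' ∈ G, ∑ x ∈ idx T e β,
        (if Cond β x a ∧ Cond β x a' then Real.log (x.1 : ℝ) else 0) ≤
      (G.card : ℝ) * W + (G.card : ℝ) ^ 2 * (w + Real.log 2) := by
    have h8 : ∀ a ∈ G, ∀ a' ∈ G, (∑ x ∈ idx T e β,
        if Cond β x a ∧ Cond β x a' then Real.log (x.1 : ℝ) else 0) ≤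
        (if a = a' then W else 0) + (w + Real.log 2) := by
      intro a ha a' ha'
      split_ifs with heq
      · subst heq
        have : (∑ x ∈ idx T e β, if Cond β x a ∧ Cond β x a then Real.log (x.1 : ℝ) else 0) =
            Fw T e β a := by
          unfold Fw
          simp only [and_self]
        rw [this]
        linarith [Fw_le T e β a]
      · have := pair_bound (e := e) h.1 hβ (hne0 a ha) (hne0 a' ha') heq
        linarith [hd a ha a' ha']
    calc _ ≤ ∑ a ∈ G, ∑ a' ∈ G, ((if a = a' then W else 0) + (w + Real.log 2)) :=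
          sum_le_sum fun a ha => sum_le_sum fun a' ha' => h8 a ha a' ha'
      _ = (G.card : ℝ) * W + (G.card : ℝ) ^ 2 * (w + Real.log 2) := by
          simp_rw [sum_add_distrib, sum_const, nsmul_eq_mul]
          have : ∑ a ∈ G, ∑ a' ∈ G, (if a = a' then W else 0) = (G.card : ℝ) * W := by
            have h9 : ∀ a ∈ G, (∑ a' ∈ G, if a = a' then W else 0) = W := by
              intro a ha
              rw [sum_ite_eq, if_pos ha]
            rw [sum_congr rfl h9, sum_const, nsmul_eq_mul]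
          rw [this]
          ring
  rcases G.eq_empty_or_nonempty with hGe | hGne
  · rw [hGe]
    simp only [card_empty, Nat.cast_zero]
    positivity
  have hGp : (0 : ℝ) < G.card := by exact_mod_cast card_pos.2 hGne
  rw [← W1_eq, ← h1, h4] at h3
  rw [← hWdef] at h3
  have h10 : ((G.card : ℝ) * (κ / 2 * W)) ^ 2 ≤ (∑ a ∈ G, Fw T e β a) ^ 2 :=
    pow_le_pow_left₀ (by positivity) h2 2
  have h11 : ((G.card : ℝ) * (κ / 2 * W)) ^ 2 ≤
      W * ((G.card : ℝ) * W + (G.card : ℝ) ^ 2 * (w + Real.log 2)) :=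
    h10.trans (h3.trans (mul_le_mul_of_nonneg_left h7 hW.le))
  have h12 : (G.card : ℝ) ^ 2 * (w + Real.log 2) ≤ (G.card : ℝ) ^ 2 * (κ ^ 2 * W / 8) :=
    mul_le_mul_of_nonneg_left hw (by positivity)
  have h13 : (G.card : ℝ) * W * W * (G.card * κ ^ 2) ≤ (G.card : ℝ) * W * W * 8 := by nlinarith
  have h14 : (G.card : ℝ) * κ ^ 2 ≤ 8 := le_of_mul_le_mul_left h13 (by positivity)
  rw [le_div_iff₀ (by positivity)]
  exact h14

end Pool.Agent.Helper26.TR
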