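import Pool.Agent.Helper26.TR.Cells

set_option autoImplicit false

/-!
MP_120218_co, project TR: interface between the decoding corollary (helper84), the count (helper34)
and the structure theorem.
-/

open Finset

namespace Pool.Agent.Helper26.TR

/-- the resolution of the labels -/
noncomputable def Ures (K : ℕ) (τ L Γ : ℝ) (lam : ℕ → ℕ) (q : ℕ) : ℕ :=
  if lam q = 0 then 1 else K * lam q + ⌈τ * Γ / (L * Real.log q)⌉₊

/-- the valuations agree up to the resolution -/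
def Close (U : ℕ → ℕ) (b b' : ℤ) : Prop :=
  ∀ q : ℕ, q.Prime → |((padicValInt q b : ℤ) - padicValInt q b')| < (U q : ℤ)

/-- the weight of a system of levels -/
noncomputable def Wt (n : ℕ) (lam : ℕ → ℕ) : ℝ :=
  ∑ q ∈ (Finset.range n).filter Nat.Prime, (lam q : ℝ) * Real.log q

open Classical in
/-- decoding corollary (helper84) -/
def CorS : Prop :=
  ∀ (k : ℕ) (ζ : ℝ), 0 < ζ → ∃ (κ : ℝ) (K : ℕ) (τ C : ℝ), 0 < κ ∧ κ ≤ 1 ∧ 1 ≤ K ∧ 0 < τ ∧ 0 < C ∧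
    ∀ (Y : Fin k → Finset ℤ) (L : ℝ) (M : ℕ) (n : ℕ) (lam : Fin k → ℕ → ℕ), 1 ≤ L → 1 ≤ M →
      (∀ l, (Y l).Nonempty) → (∀ l, (0 : ℤ) ∉ Y l) → (∀ l, ((Y l).card : ℝ) ≤ Real.exp L) →
      (∀ l q, n ≤ q → lam l q = 0) →
      (∀ l l' : Fin k, l' < l → ∀ q : ℕ, q.Prime →
        (((Y l').filter (fun b => (q : ℤ) ^ (lam l q + 1) ∣ b)).card : ℝ) ≤ κ * (Y l').card) →
      (∀ l : Fin k, 0 < (l : ℕ) → ∀ b ∈ Y l,
        ((Y l).filter (fun b' => Close (Ures K τ L (Wt n (lam l)) (lam l)) b b' ∧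
          dst b b' ≤ C * Wt n (lam l))).card ≤ M) →
      ∑ l, Real.log ((Y l).card) - k * (ζ * L + Real.log M + 1) ≤
        Real.log (((Fintype.piFinset Y).image (fun f => ∏ i, f i)).card)

open Classical in
/-- the count (helper73, helper34) -/
def CountS : Prop :=
  ∀ (K : ℕ) (τ ζ : ℝ), 0 < τ → 0 < ζ → ∃ (δ : ℝ) (n₀ : ℕ), 0 < δ ∧
    ∀ (N n : ℕ) (lam : ℕ → ℕ), n₀ ≤ N → (∀ q, n ≤ q → lam q = 0) →
      Wt n lam < δ * (Real.log N * Real.log (Real.log N)) →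
      ∀ (Y : Finset ℤ) (b : ℤ), (0 : ℤ) ∉ Y →
        ((Y.filter (fun b' => Close (Ures K τ (Real.log N) (Wt n lam) lam) b b')).card : ℝ) ≤
          (N : ℝ) ^ ζ

end Pool.Agent.Helper26.TR
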