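import Pool.Agent.Helper26.TR.NZ

set_option autoImplicit false

/-!
MP_120218_co, project TR: the structure theorem for one set, without auxiliary definitions.
-/

open Finset

namespace Pool.Agent.Helper26.TR

theorem W0_pos_ge {κ : ℝ} {A : Finset ℤ} (h : 0 < W0 κ A) : Real.log 2 ≤ W0 κ A := by
  unfold W0 at h ⊢
  obtain ⟨p, hp, hpos⟩ : ∃ p ∈ prs A, 0 < (lev κ A p : ℝ) * Real.log p := by
    by_contra hcon
    push Not at hcon
    exact absurd h (not_lt.2 (sum_nonpos hcon))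
  have hp2 : p.Prime := by
    unfold prs at hp
    rw [mem_biUnion] at hp
    obtain ⟨a, _, ha⟩ := hp
    exact Nat.prime_of_mem_primeFactors ha
  have h1 : (1 : ℝ) ≤ (lev κ A p : ℝ) := by
    have h2 : lev κ A p ≠ 0 := by
      intro h0
      rw [h0] at hpos
      simp at hpos
    exact_mod_cast Nat.one_le_iff_ne_zero.2 h2
  have h3 : Real.log 2 ≤ Real.log p :=
    Real.log_le_log (by norm_num) (by exact_mod_cast hp2.two_le)
  have hlog2 : 0 < Real.log 2 := Real.log_pos (by norm_num)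
  have h4 : Real.log 2 ≤ (lev κ A p : ℝ) * Real.log p := by nlinarith
  refine h4.trans ?_
  exact single_le_sum (f := fun p => (lev κ A p : ℝ) * Real.log p)
    (fun q _ => mul_nonneg (Nat.cast_nonneg _) (Real.log_natCast_nonneg _)) hp

/-- the level is popular -/
theorem lev_pop {κ : ℝ} (hκ : κ ≤ 1) (A : Finset ℤ) (p : ℕ) :
    κ * (A.card : ℝ) ≤ ((A.filter (fun a => (p : ℤ) ^ lev κ A p ∣ a)).card : ℝ) := by
  have h0 : κ * (A.card : ℝ) ≤ (cdiv A ((p : ℤ) ^ 0) : ℝ) := by
    unfold cdiv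
    have : A.filter (fun a => (p : ℤ) ^ 0 ∣ a) = A := by
      apply filter_true_of_mem
      intro a _
      rw [pow_zero]
      exact one_dvd _
    rw [this]
    calc κ * (A.card : ℝ) ≤ 1 * A.card := mul_le_mul_of_nonneg_right hκ (Nat.cast_nonneg _)
      _ = _ := one_mul _
  have h : κ * (A.card : ℝ) ≤ (cdiv A ((p : ℤ) ^ lev κ A p) : ℝ) := by
    unfold lev
    exact Nat.findGreatest_spec
      (P := fun l => κ * (A.card : ℝ) ≤ (cdiv A ((p : ℤ) ^ l) : ℝ))
      (Nat.zero_le (mval A p)) h0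
  exact h

/-- **Structure theorem for one set.**  If `|A^k| < c|A|^(k-ε)` then, for some `κ` in a finite set
which depends on `k` and `ε` only, the leading digits shared by `κ|A|` elements weigh at most `C`
times as much as the prime powers which divide `κ|A|` elements. -/
theorem nzOne (h : NZMix) : ∀ k : ℕ, ∀ ε : ℝ, 0 < ε → ∃ (S : Finset ℝ) (C c : ℝ),
    (∀ κ ∈ S, 0 < κ ∧ κ ≤ 1) ∧ 0 < C ∧ 0 < c ∧
    ∀ A : Finset ℤ, A.Nonempty → (0 : ℤ) ∉ A →
      (((Fintype.piFinset (fun _ : Fin k => A)).image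
        (fun f : Fin k → ℤ => ∏ i, f i)).card : ℝ) < c * (A.card : ℝ) ^ ((k : ℝ) - ε) →
      ∃ κ ∈ S, ∃ (R : Finset ℕ) (f : ℕ → ℕ),
        (∀ p ∈ R, p.Prime ∧
          κ * (A.card : ℝ) ≤ ((A.filter (fun a => (p : ℤ) ^ f p ∣ a)).card : ℝ)) ∧
        c * (Real.log A.card * Real.log (Real.log A.card)) ≤ ∑ p ∈ R, (f p : ℝ) * Real.log p ∧
        ∀ (T : Finset ℕ) (e : ℕ → ℕ) (β : ℕ → ℤ), (∀ p ∈ T, p.Prime) →
          (∀ p ∈ T, ¬ ((p : ℤ) ^ e p ∣ β p)) →
          (∀ p ∈ T, κ * (A.card : ℝ) ≤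
            ((A.filter (fun a => (p : ℤ) ^ e p ∣ a - β p)).card : ℝ)) →
          ∑ p ∈ T, ((e p - padicValInt p (β p) : ℕ) : ℝ) * Real.log p ≤
            C * ∑ p ∈ R, (f p : ℝ) * Real.log p := by
  intro k ε hε
  obtain ⟨κ, C, c, hκ, hC, hc, hmain⟩ := h k ε hε
  have hlog2 : 0 < Real.log 2 := Real.log_pos (by norm_num)
  set k' : ℝ := (k : ℝ) + 1 with hk'
  have hk'0 : 0 < k' := by positivity
  set C' : ℝ := C * (k' + 1 / Real.log 2) with hC'
  have hC'0 : 0 < C' := by positivity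
  set c' : ℝ := min (c / k') (1 / 2 ^ k) with hc'
  have hc'0 : 0 < c' := lt_min (by positivity) (by positivity)
  have hc'c : c' ≤ c / k' := min_le_left _ _
  have hc'2 : c' ≤ 1 / 2 ^ k := min_le_right _ _
  have hc'c2 : c' ≤ c := by
    refine hc'c.trans ?_
    rw [div_le_iff₀ hk'0]
    have : (0 : ℝ) ≤ k := Nat.cast_nonneg _
    nlinarith
  clear_value c'
  refine ⟨univ.image κ, C', c', ?_, hC'0, hc'0, ?_⟩
  · intro x hx
    rw [mem_image] at hx
    obtain ⟨l, _, rfl⟩ := hx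
    exact hκ l
  intro A hA hA0 hcard
  have hNpos : (0 : ℝ) < A.card := by exact_mod_cast card_pos.2 hA
  have hN1 : (1 : ℝ) ≤ A.card := by exact_mod_cast card_pos.2 hA
  have hne : ((Fintype.piFinset (fun _ : Fin k => A)).image
      (fun f : Fin k → ℤ => ∏ i, f i)).Nonempty := by
    apply Nonempty.image
    rw [Fintype.piFinset_nonempty]
    exact fun _ => hA
  have h1 : (1 : ℝ) ≤ (((Fintype.piFinset (fun _ : Fin k => A)).image
      (fun f : Fin k → ℤ => ∏ i, f i)).card : ℝ) := by exact_mod_cast card_pos.2 hne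
  -- `A` has at least three elements
  have hN3 : 3 ≤ A.card := by
    by_contra hlt
    push Not at hlt
    have h2 : (A.card : ℝ) ≤ 2 := by
      have : A.card ≤ 2 := by omega
      exact_mod_cast this
    have h3 : (A.card : ℝ) ^ ((k : ℝ) - ε) ≤ 2 ^ k := by
      calc (A.card : ℝ) ^ ((k : ℝ) - ε) ≤ (A.card : ℝ) ^ (k : ℝ) :=
            Real.rpow_le_rpow_of_exponent_le hN1 (by linarith)
        _ ≤ 2 ^ (k : ℝ) := Real.rpow_le_rpow hNpos.le h2 (Nat.cast_nonneg _)
        _ = 2 ^ k := Real.rpow_natCast _ _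
    have h4 : c' * (A.card : ℝ) ^ ((k : ℝ) - ε) ≤ 1 := by
      calc c' * (A.card : ℝ) ^ ((k : ℝ) - ε) ≤ (1 / 2 ^ k) * 2 ^ k := by
            apply mul_le_mul hc'2 h3 (by positivity) (by positivity)
        _ = 1 := by field_simp
    linarith
  have hlog1 : 1 < Real.log A.card := by
    rw [Real.lt_log_iff_exp_lt hNpos]
    have h5 : Real.exp 1 < 2.7182818286 := Real.exp_one_lt_d9
    have h6 : (3 : ℝ) ≤ A.card := by exact_mod_cast hN3
    linarith
  have hLL : 0 < Real.log A.card * Real.log (Real.log A.card) :=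
    mul_pos (by linarith) (Real.log_pos hlog1)
  obtain ⟨l, hl, hdig, hlow⟩ := hmain A.card (fun _ => A) (fun _ => hA) (fun _ => hA0)
    (fun _ => le_rfl) (by
      refine lt_of_lt_of_le hcard ?_
      rw [prod_const, card_univ, Fintype.card_fin, mul_assoc,
        ← Real.rpow_natCast (A.card : ℝ) k, ← Real.rpow_add hNpos]
      have : -ε + (k : ℝ) = (k : ℝ) - ε := by ring
      rw [this]
      exact mul_le_mul_of_nonneg_right hc'c2 (by positivity))
  have hW0b : W0b (κ l) (fun _ : Fin k => A) l = (l : ℕ) * W0 (κ l) A := by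
    unfold W0b
    rw [sum_const, nsmul_eq_mul]
    congr 2
    have : univ.filter (fun l' : Fin k => l' < l) = Iio l := by
      ext x
      simp
    rw [this, Fin.card_Iio]
  rw [hW0b] at hdig hlow
  have hWn := W0_nonneg (κ l) A
  have hlk : ((l : ℕ) : ℝ) ≤ k' := by
    have : (l : ℕ) ≤ k := l.2.le
    have : ((l : ℕ) : ℝ) ≤ k := by exact_mod_cast this
    linarith
  have hWlow : c' * (Real.log A.card * Real.log (Real.log A.card)) ≤ W0 (κ l) A := by
    have h7 : c * (Real.log A.card * Real.log (Real.log A.card)) ≤ k' * W0 (κ l) A :=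
      hlow.trans (mul_le_mul_of_nonneg_right hlk hWn)
    have h8 : c' * (Real.log A.card * Real.log (Real.log A.card)) ≤
        c / k' * (Real.log A.card * Real.log (Real.log A.card)) :=
      mul_le_mul_of_nonneg_right hc'c hLL.le
    have h9 : c / k' * (Real.log A.card * Real.log (Real.log A.card)) =
        (c * (Real.log A.card * Real.log (Real.log A.card))) / k' := by ring
    rw [h9] at h8
    refine h8.trans ?_
    rw [div_le_iff₀ hk'0]
    linarith
  have hWpos : 0 < W0 (κ l) A := lt_of_lt_of_le (by positivity) hWlow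
  refine ⟨κ l, mem_image_of_mem _ (mem_univ _), prs A, lev (κ l) A, ?_, hWlow, ?_⟩
  · intro p hp
    refine ⟨?_, lev_pop (hκ l).2 A p⟩
    unfold prs at hp
    rw [mem_biUnion] at hp
    obtain ⟨a, _, ha⟩ := hp
    exact Nat.prime_of_mem_primeFactors ha
  · intro T e β hT hβ hpop
    have h10 := hdig T e β ⟨hT, hβ, hpop⟩
    unfold W1 at h10
    refine h10.trans ?_
    have h11 : ((l : ℕ) : ℝ) * W0 (κ l) A + 1 ≤ (k' + 1 / Real.log 2) * W0 (κ l) A := by
      have h12 := W0_pos_ge hWpos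
      have h13 : (1 : ℝ) ≤ 1 / Real.log 2 * W0 (κ l) A := by
        rw [div_mul_eq_mul_div, one_mul, le_div_iff₀ hlog2]
        linarith
      have h14 : ((l : ℕ) : ℝ) * W0 (κ l) A ≤ k' * W0 (κ l) A :=
        mul_le_mul_of_nonneg_right hlk hWn
      linarith
    calc C * (((l : ℕ) : ℝ) * W0 (κ l) A + 1) ≤ C * ((k' + 1 / Real.log 2) * W0 (κ l) A) :=
          mul_le_mul_of_nonneg_left h11 hC.le
      _ = C' * W0 (κ l) A := by rw [hC']; ring
      _ = C' * ∑ p ∈ prs A, (lev (κ l) A p : ℝ) * Real.log p := rfl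

end Pool.Agent.Helper26.TR
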